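import Pool.Agent.Helper6.EC_B.Goals

/-!
# MP_ecc237_nt, Part B, packet LAPI
-/

open MeasureTheory Filter Topology Set

noncomputable section

namespace EC237.PB.PkLAPI

/-- The Poisson kernel: a smooth primitive of `1 / (A - B cos θ)`. -/
theorem hasDerivAt_prim {A B S ρ : ℝ} (hS : 0 < S) (hA : 0 < A) (hB : 0 ≤ B)
    (hS2 : S ^ 2 = A ^ 2 - B ^ 2) (hρ : ρ * (A + S) = B) (hρ1 : ρ < 1) (hρ0 : 0 ≤ ρ)
    (hBA : B < A) (θ : ℝ) :
    HasDerivAt (fun θ : ℝ => S⁻¹ * (θ + 2 * Real.arctan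
      (ρ * Real.sin θ / (1 - ρ * Real.cos θ)))) (1 / (A - B * Real.cos θ)) θ := by
  have hc : 0 < 1 - ρ * Real.cos θ := by
    have := Real.cos_le_one θ
    nlinarith
  have hd : 0 < A - B * Real.cos θ := by
    have := Real.cos_le_one θ
    nlinarith
  have h1 : HasDerivAt (fun θ : ℝ => ρ * Real.sin θ / (1 - ρ * Real.cos θ))
      ((ρ * Real.cos θ * (1 - ρ * Real.cos θ) - ρ * Real.sin θ * (-(ρ * -Real.sin θ))) /
        (1 - ρ * Real.cos θ) ^ 2) θ :=
    ((Real.hasDerivAt_sin θ).const_mul ρ).div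
      (((Real.hasDerivAt_cos θ).const_mul ρ).const_sub 1) hc.ne'
  have h2 := ((hasDerivAt_id θ).add (h1.arctan.const_mul 2)).const_mul S⁻¹
  refine h2.congr_deriv ?_
  have hsq : Real.sin θ ^ 2 = 1 - Real.cos θ ^ 2 := by
    have := Real.sin_sq_add_cos_sq θ
    linarith
  have hden : (1 - ρ * Real.cos θ) ^ 2 + (ρ * Real.sin θ) ^ 2 = 1 - 2 * ρ * Real.cos θ + ρ ^ 2 := by
    rw [mul_pow, hsq]
    ring
  have hden0 : 0 < 1 - 2 * ρ * Real.cos θ + ρ ^ 2 := by
    rw [← hden]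
    positivity
  have e1 : 1 / (1 + (ρ * Real.sin θ / (1 - ρ * Real.cos θ)) ^ 2) *
      ((ρ * Real.cos θ * (1 - ρ * Real.cos θ) - ρ * Real.sin θ * (-(ρ * -Real.sin θ))) /
        (1 - ρ * Real.cos θ) ^ 2) = (ρ * Real.cos θ - ρ ^ 2) / (1 - 2 * ρ * Real.cos θ + ρ ^ 2) := by
    have e2 : ρ * Real.cos θ * (1 - ρ * Real.cos θ) - ρ * Real.sin θ * (-(ρ * -Real.sin θ)) =
        ρ * Real.cos θ - ρ ^ 2 := by
      have : ρ * Real.cos θ * (1 - ρ * Real.cos θ) - ρ * Real.sin θ * (-(ρ * -Real.sin θ)) =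
        ρ * Real.cos θ - ρ ^ 2 * (Real.cos θ ^ 2 + Real.sin θ ^ 2) := by ring
      rw [this, Real.cos_sq_add_sin_sq, mul_one]
    have e3 : 1 + (ρ * Real.sin θ / (1 - ρ * Real.cos θ)) ^ 2 =
        (1 - 2 * ρ * Real.cos θ + ρ ^ 2) / (1 - ρ * Real.cos θ) ^ 2 := by
      rw [← hden]
      field_simp
    rw [e2, e3]
    field_simp
  rw [e1]
  have hAS : 0 < A + S := by positivity
  -- polynomial identity
  have key : (A + S) ^ 2 * ((1 - 2 * ρ * Real.cos θ + ρ ^ 2) + 2 * (ρ * Real.cos θ - ρ ^ 2)) *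
      (A - B * Real.cos θ) = (A + S) ^ 2 * (S * (1 - 2 * ρ * Real.cos θ + ρ ^ 2)) := by
    have e4 : (A + S) ^ 2 * ((1 - 2 * ρ * Real.cos θ + ρ ^ 2) + 2 * (ρ * Real.cos θ - ρ ^ 2)) =
        (A + S) ^ 2 - (ρ * (A + S)) ^ 2 := by ring
    have e5 : (A + S) ^ 2 * (S * (1 - 2 * ρ * Real.cos θ + ρ ^ 2)) =
        S * ((A + S) ^ 2 - 2 * (ρ * (A + S)) * (A + S) * Real.cos θ + (ρ * (A + S)) ^ 2) := by ring
    rw [e4, e5, hρ]
    have hB2 : B ^ 2 = A ^ 2 - S ^ 2 := by linarith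
    rw [hB2]
    ring
  have hne : (A + S) ^ 2 ≠ 0 := by positivity
  have key2 := mul_left_cancel₀ hne (by rw [← mul_assoc, key] : (A + S) ^ 2 *
    (((1 - 2 * ρ * Real.cos θ + ρ ^ 2) + 2 * (ρ * Real.cos θ - ρ ^ 2)) *
      (A - B * Real.cos θ)) = (A + S) ^ 2 * (S * (1 - 2 * ρ * Real.cos θ + ρ ^ 2)))
  rw [eq_div_iff hd.ne']
  have e6 : 1 + 2 * ((ρ * Real.cos θ - ρ ^ 2) / (1 - 2 * ρ * Real.cos θ + ρ ^ 2)) =
      ((1 - 2 * ρ * Real.cos θ + ρ ^ 2) + 2 * (ρ * Real.cos θ - ρ ^ 2)) /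
        (1 - 2 * ρ * Real.cos θ + ρ ^ 2) := by
    rw [add_div, div_self hden0.ne', mul_div_assoc]
  rw [e6, mul_assoc, div_mul_eq_mul_div, key2, mul_div_assoc, div_self hden0.ne', mul_one,
    inv_mul_cancel₀ hS.ne']

theorem integral_inv {A B : ℝ} (hB : 0 ≤ B) (hBA : B < A) :
    ∫ θ in (0:ℝ)..Real.pi, 1 / (A - B * Real.cos θ) = Real.pi / Real.sqrt (A ^ 2 - B ^ 2) := by
  have hA : 0 < A := lt_of_le_of_lt hB hBA
  have hpos : 0 < A ^ 2 - B ^ 2 := by nlinarith
  set S := Real.sqrt (A ^ 2 - B ^ 2) with hSdef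
  have hS : 0 < S := Real.sqrt_pos.2 hpos
  have hS2 : S ^ 2 = A ^ 2 - B ^ 2 := Real.sq_sqrt hpos.le
  have hAS : 0 < A + S := by positivity
  have h := intervalIntegral.integral_eq_sub_of_hasDerivAt (a := 0) (b := Real.pi)
    (fun θ _ => hasDerivAt_prim (ρ := B / (A + S)) hS hA hB hS2 (div_mul_cancel₀ _ hAS.ne')
      ((div_lt_one hAS).2 (by linarith)) (by positivity) hBA θ) ?_
  · rw [h]
    simp only [Real.sin_pi, Real.sin_zero, mul_zero, zero_div, Real.arctan_zero, add_zero, sub_zero]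
    rw [div_eq_mul_inv, mul_comm]
  · refine Continuous.intervalIntegrable ?_ _ _
    refine continuous_const.div (by fun_prop) fun θ => ?_
    have h1 := Real.cos_le_one θ
    have h2 : 0 < A - B * Real.cos θ := by nlinarith
    exact h2.ne'

theorem thm : G_LAPI := by
  intro A B hB hBA
  have hc : ∀ θ : ℝ, 0 < A - B * Real.cos θ := fun θ => by
    have h1 := Real.cos_le_one θ
    nlinarith
  have hpt : ∀ q : ℝ, Real.exp (-(q * A)) * Ib (q * B) =
      (1 / Real.pi) * ∫ θ in Ioc 0 Real.pi, Real.exp (-(q * (A - B * Real.cos θ))) := by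
    intro q
    unfold Ib
    rw [mul_left_comm, ← intervalIntegral.integral_const_mul,
      intervalIntegral.integral_of_le Real.pi_pos.le]
    congr 1
    refine integral_congr_ae (Eventually.of_forall fun θ => ?_)
    show Real.exp (-(q * A)) * Real.exp (q * B * Real.cos θ) = _
    rw [← Real.exp_add]
    congr 1
    ring
  have hint : Integrable (Function.uncurry fun (q θ : ℝ) =>
      Real.exp (-(q * (A - B * Real.cos θ))))
      ((volume.restrict (Ioi (0:ℝ))).prod (volume.restrict (Ioc 0 Real.pi))) := by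
    have h1 : Integrable (fun p : ℝ × ℝ => Real.exp (-(A - B) * p.1) * 1)
        ((volume.restrict (Ioi (0:ℝ))).prod (volume.restrict (Ioc 0 Real.pi))) := by
      refine Integrable.mul_prod (f := fun q : ℝ => Real.exp (-(A - B) * q)) (g := fun _ => (1:ℝ))
        ?_ ?_
      · exact integrableOn_exp_mul_Ioi (by linarith) 0
      · exact integrable_const _
    refine h1.mono' ?_ ?_
    · refine Continuous.aestronglyMeasurable ?_
      unfold Function.uncurry
      fun_prop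
    · have h2 : ∀ᵐ p : ℝ × ℝ ∂((volume.restrict (Ioi (0:ℝ))).prod
          (volume.restrict (Ioc 0 Real.pi))), p.1 ∈ Ioi (0:ℝ) := by
        rw [Measure.prod_restrict]
        refine (ae_restrict_mem (measurableSet_Ioi.prod measurableSet_Ioc)).mono fun p hp => hp.1
      refine h2.mono fun p hp => ?_
      simp only [Function.uncurry]
      rw [Real.norm_of_nonneg (Real.exp_nonneg _), mul_one]
      refine Real.exp_le_exp.2 ?_
      have h3 := Real.cos_le_one p.2
      have h4 : (0:ℝ) < p.1 := hp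
      have h5 : B * Real.cos p.2 ≤ B := by nlinarith
      nlinarith
  constructor
  · have h1 := (hint.integral_prod_left).const_mul (1 / Real.pi)
    refine h1.congr (Eventually.of_forall fun q => ?_)
    exact (hpt q).symm
  · simp only [hpt]
    rw [integral_const_mul, integral_integral_swap hint]
    have h1 : ∀ θ : ℝ, ∫ q in Ioi (0:ℝ), Real.exp (-(q * (A - B * Real.cos θ))) =
        1 / (A - B * Real.cos θ) := by
      intro θ
      have h2 := integral_exp_mul_Ioi (a := -(A - B * Real.cos θ)) (by linarith [hc θ]) 0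
      rw [mul_zero, Real.exp_zero, neg_div_neg_eq] at h2
      rw [← h2]
      refine integral_congr_ae (Eventually.of_forall fun q => ?_)
      show Real.exp _ = Real.exp _
      congr 1
      ring
    simp only [h1]
    rw [← intervalIntegral.integral_of_le Real.pi_pos.le, integral_inv hB hBA]
    have := Real.pi_pos.ne'
    field_simp

end EC237.PB.PkLAPI
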